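import Mathlib
import Pool.Agent.Helper4.Final

/-!
# MP_6c5a21_nt: large subspaces in `A + A`, uniformly in `n` and in the density

For ALL `n`, all `δ ≥ 0` and all nonempty `A ⊆ F_2^n` of density at least `1/2 - δ` the sumset
`A + A` contains a linear subspace of codimension at most `20000 δ² n + 1`. For `δ = C / √n` this is
`20000 C² + 1` for every `n`. Conversely, codimension `2 k + 1` is needed for sets of density more
than `1/2 - k / √n`, for every `k` and every odd `n ≥ 2 k + 1`. So the least `K(C)` in the question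
lies between `2 ⌊C⌋ + 1` and `20000 C² + 1`.
-/

set_option autoImplicit false
open scoped Pointwise

namespace Pool.Agent.Results.MP_6c5a21_nt.UniformCodimension

/-- The weight of a vector. -/
def wt {n : ℕ} (x : Fin n → ZMod 2) : ℕ := (Finset.univ.filter fun i => x i ≠ 0).card

lemma wt_add_le {n : ℕ} (x y : Fin n → ZMod 2) : wt (x + y) ≤ wt x + wt y := by
  classical
  unfold wt
  refine le_trans (Finset.card_le_card ?_) (Finset.card_union_le _ _)
  intro i hi
  simp only [Finset.mem_filter, Finset.mem_univ, true_and, Finset.mem_union, Pi.add_apply] at hi ⊢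
  by_contra h
  push Not at h
  exact hi (by rw [h.1, h.2, add_zero])

/-- A subspace of dimension `d` has a vector of weight at least `d`. -/
lemma exists_heavy {n : ℕ} (V : Submodule (ZMod 2) (Fin n → ZMod 2)) :
    ∃ v ∈ V, Module.finrank (ZMod 2) V ≤ wt v := by
  classical
  obtain ⟨v, hv, hmax⟩ := Set.exists_max_image (V : Set (Fin n → ZMod 2)) wt (Set.toFinite _)
    ⟨0, V.zero_mem⟩
  refine ⟨v, hv, ?_⟩
  by_contra hcon
  push Not at hcon
  let T := Finset.univ.filter fun i => v i ≠ 0
  let f : V →ₗ[ZMod 2] (T → ZMod 2) :=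
    (LinearMap.pi fun i : T => LinearMap.proj (i : Fin n)).comp V.subtype
  have h1 := LinearMap.finrank_range_add_finrank_ker f
  have h2 : Module.finrank (ZMod 2) (LinearMap.range f) ≤ wt v := by
    have h3 := Submodule.finrank_le (LinearMap.range f)
    rw [Module.finrank_fintype_fun_eq_card, Fintype.card_coe] at h3
    exact h3
  have h4 : LinearMap.ker f ≠ ⊥ := by
    intro h
    rw [h, finrank_bot] at h1
    omega
  obtain ⟨u, hu, hu0⟩ := (Submodule.ne_bot_iff _).1 h4
  have hu1 : ∀ i ∈ T, (u : Fin n → ZMod 2) i = 0 := by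
    intro i hi
    have := congrFun (LinearMap.mem_ker.1 hu) ⟨i, hi⟩
    exact this
  have hle := hmax (v + u) (V.add_mem hv u.2)
  have hsub : T ⊆ Finset.univ.filter fun i => (v + (u : Fin n → ZMod 2)) i ≠ 0 := by
    intro i hi
    have h5 := hu1 i hi
    simp only [Finset.mem_filter, Finset.mem_univ, true_and, Pi.add_apply, h5, add_zero]
    exact (Finset.mem_filter.1 hi).2
  obtain ⟨j, hj⟩ : ∃ j, (u : Fin n → ZMod 2) j ≠ 0 := by
    by_contra h
    push Not at h
    exact hu0 (Subtype.ext (funext h))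
  have hjT : j ∉ T := fun h => hj (hu1 j h)
  have hvj : v j = 0 := by
    by_contra h
    exact hjT (Finset.mem_filter.2 ⟨Finset.mem_univ j, h⟩)
  have hlt : T.card < (Finset.univ.filter fun i => (v + (u : Fin n → ZMod 2)) i ≠ 0).card := by
    apply Finset.card_lt_card
    refine ⟨hsub, fun h => hjT (h ?_)⟩
    simp only [Finset.mem_filter, Finset.mem_univ, true_and, Pi.add_apply, hvj, zero_add]
    exact hj
  exact absurd hle (not_le.2 hlt)

/-- The number of vectors of weight `j`. -/
lemma card_wt (n j : ℕ) :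
    (Finset.univ.filter fun x : Fin n → ZMod 2 => wt x = j).card = n.choose j := by
  classical
  have h1 : (Finset.univ.filter fun x : Fin n → ZMod 2 => wt x = j).card =
      (Finset.powersetCard j (Finset.univ : Finset (Fin n))).card := by
    refine Finset.card_bij (fun x _ => Finset.univ.filter fun i => x i ≠ 0) ?_ ?_ ?_
    · intro x hx
      rw [Finset.mem_powersetCard]
      exact ⟨Finset.subset_univ _, (Finset.mem_filter.1 hx).2⟩
    · intro x _ y _ h
      funext i
      have h2 : x i ≠ 0 ↔ y i ≠ 0 := by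
        have := Finset.ext_iff.1 h i
        simpa using this
      have h3 : ∀ a b : ZMod 2, (a ≠ 0 ↔ b ≠ 0) → a = b := by decide
      exact h3 _ _ h2
    · intro S hS
      refine ⟨fun i => if i ∈ S then 1 else 0, ?_, ?_⟩
      · rw [Finset.mem_filter]
        refine ⟨Finset.mem_univ _, ?_⟩
        unfold wt
        rw [← (Finset.mem_powersetCard.1 hS).2]
        congr 1
        ext i
        simp
      · ext i
        simp
  rw [h1, Finset.card_powersetCard, Finset.card_univ, Fintype.card_fin]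

lemma central_sq (m : ℕ) : (m.centralBinom : ℝ) ^ 2 * (2 * m + 1) ≤ 16 ^ m := by
  induction m with
  | zero => simp
  | succ m ih =>
    have h1 : ((m + 1 : ℕ) : ℝ) * ((m + 1).centralBinom : ℝ) =
        2 * (2 * m + 1) * (m.centralBinom : ℝ) := by
      exact_mod_cast Nat.succ_mul_centralBinom_succ m
    have hm : (0 : ℝ) ≤ m := Nat.cast_nonneg m
    have hc : (0 : ℝ) ≤ (m.centralBinom : ℝ) ^ 2 := by positivity
    push_cast at h1 ⊢
    have h2 : ((m + 1).centralBinom : ℝ) = 2 * (2 * m + 1) * (m.centralBinom : ℝ) / (m + 1) := by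
      field_simp
      linear_combination h1
    rw [h2]
    have h3 : (2 * (2 * (m : ℝ) + 1) * (m.centralBinom : ℝ) / (m + 1)) ^ 2 * (2 * (m + 1) + 1) =
        (m.centralBinom : ℝ) ^ 2 * (2 * m + 1) * (4 * (2 * m + 1) * (2 * m + 3) / (m + 1) ^ 2) := by
      field_simp
      ring
    rw [h3, pow_succ]
    have h4 : 4 * (2 * (m : ℝ) + 1) * (2 * m + 3) / (m + 1) ^ 2 ≤ 16 := by
      rw [div_le_iff₀ (by positivity)]
      nlinarith
    have h5 : 0 ≤ 4 * (2 * (m : ℝ) + 1) * (2 * m + 3) / (m + 1) ^ 2 :=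
      div_nonneg (mul_nonneg (by linarith) (by linarith)) (sq_nonneg _)
    have h6 : (0 : ℝ) ≤ 16 ^ m := pow_nonneg (by norm_num) m
    exact mul_le_mul ih h4 h5 h6

/-- The middle binomial coefficient. -/
lemma middle_lt (m : ℕ) : ((2 * m + 1).choose m : ℝ) < 2 ^ (2 * m + 1) / Real.sqrt (2 * m + 1) := by
  have h1 := central_sq (m + 1)
  have h2 : (m + 1).centralBinom = 2 * (2 * m + 1).choose m := by
    rw [Nat.centralBinom]
    have h3 : 2 * (m + 1) = (2 * m + 1) + 1 := by ring
    rw [h3, Nat.choose_succ_succ]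
    have h4 : (2 * m + 1).choose (m + 1) = (2 * m + 1).choose m := by
      apply Nat.choose_symm_of_eq_add
      omega
    rw [h4]
    ring
  rw [h2] at h1
  push_cast at h1
  set c : ℝ := ((2 * m + 1).choose m : ℝ) with hc
  have hc0 : 0 < c := by
    rw [hc]
    exact_mod_cast Nat.choose_pos (by omega)
  have hs : 0 < Real.sqrt (2 * m + 1) := Real.sqrt_pos.2 (by positivity)
  rw [lt_div_iff₀ hs]
  have h5 : (c * Real.sqrt (2 * m + 1)) ^ 2 < (2 ^ (2 * m + 1)) ^ 2 := by
    rw [mul_pow, Real.sq_sqrt (by positivity)]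
    have h6 : ((2 : ℝ) ^ (2 * m + 1)) ^ 2 * 4 = 16 ^ (m + 1) := by
      rw [← pow_mul]
      have : (16 : ℝ) = 2 ^ 4 := by norm_num
      rw [this, ← pow_mul]
      have : (4 : ℝ) = 2 ^ 2 := by norm_num
      rw [this, ← pow_add]
      congr 1
      ring
    nlinarith
  exact lt_of_pow_lt_pow_left₀ 2 (by positivity) h5

/-- The half sum of the binomial coefficients. -/
lemma card_low (m k : ℕ) (hk : k ≤ m) :
    2 ^ (2 * m) ≤ (Finset.univ.filter fun x : Fin (2 * m + 1) → ZMod 2 => wt x ≤ m - k).card +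
      k * (2 * m + 1).choose m := by
  classical
  have h1 : ∑ j ∈ Finset.range (m + 1), (2 * m + 1).choose j = 4 ^ m :=
    Nat.sum_range_choose_halfway m
  have h2 : (Finset.univ.filter fun x : Fin (2 * m + 1) → ZMod 2 => wt x ≤ m - k).card =
      ∑ j ∈ Finset.range (m - k + 1), (2 * m + 1).choose j := by
    have h3 : (Finset.univ.filter fun x : Fin (2 * m + 1) → ZMod 2 => wt x ≤ m - k) =
        (Finset.range (m - k + 1)).biUnion
          (fun j => Finset.univ.filter fun x : Fin (2 * m + 1) → ZMod 2 => wt x = j) := by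
      ext x
      simp only [Finset.mem_filter, Finset.mem_univ, true_and, Finset.mem_biUnion,
        Finset.mem_range, exists_eq_right']
      omega
    rw [h3, Finset.card_biUnion]
    · exact Finset.sum_congr rfl fun j _ => card_wt _ _
    · intro i _ j _ hij
      rw [Function.onFun, Finset.disjoint_left]
      intro x hx hx'
      exact hij ((Finset.mem_filter.1 hx).2.symm.trans (Finset.mem_filter.1 hx').2)
  have h4 : ∑ j ∈ Finset.range (m + 1), (2 * m + 1).choose j =
      ∑ j ∈ Finset.range (m - k + 1), (2 * m + 1).choose j +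
        ∑ j ∈ Finset.Ico (m - k + 1) (m + 1), (2 * m + 1).choose j := by
    rw [Finset.sum_range_add_sum_Ico _ (by omega)]
  have h5 : ∑ j ∈ Finset.Ico (m - k + 1) (m + 1), (2 * m + 1).choose j ≤
      k * (2 * m + 1).choose m := by
    refine (Finset.sum_le_card_nsmul _ _ ((2 * m + 1).choose m) fun j _ => ?_).trans ?_
    · have := Nat.choose_le_middle j (2 * m + 1)
      have h6 : (2 * m + 1) / 2 = m := by omega
      rwa [h6] at this
    · rw [Nat.card_Ico, smul_eq_mul]
      apply Nat.mul_le_mul_right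
      omega
  have h7 : (2 : ℕ) ^ (2 * m) = 4 ^ m := by
    rw [pow_mul]
    norm_num
  rw [h7, h2, ← h1, h4]
  omega

/-- First part: for every `n`, every `δ ≥ 0` and every nonempty `A ⊆ F_2^n` of density at least
`1/2 - δ`, the sumset `A + A` contains a linear subspace of codimension at most
`⌊20000 δ² n⌋ + 1`. Second part: for all `k ≤ m` there is, in dimension `n = 2 m + 1`, a nonempty
set `A` of density greater than `1/2 - k / √n` such that every linear subspace contained in
`A + A` has codimension at least `2 k + 1`. -/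
theorem result :
    (∀ (n : ℕ) (A : Finset (Fin n → ZMod 2)), A.Nonempty → ∀ δ : ℝ, 0 ≤ δ →
      1 / 2 - δ ≤ (A.card : ℝ) / 2 ^ n →
      ∃ V : Submodule (ZMod 2) (Fin n → ZMod 2),
        n ≤ Module.finrank (ZMod 2) V + (⌊20000 * δ ^ 2 * n⌋₊ + 1) ∧
        (V : Set (Fin n → ZMod 2)) ⊆ ((A + A : Finset (Fin n → ZMod 2)) : Set (Fin n → ZMod 2))) ∧
    (∀ k m : ℕ, k ≤ m → 1 ≤ k → ∃ A : Finset (Fin (2 * m + 1) → ZMod 2), A.Nonempty ∧
      1 / 2 - k / Real.sqrt ((2 * m + 1 : ℕ) : ℝ) < (A.card : ℝ) / 2 ^ (2 * m + 1) ∧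
      ∀ V : Submodule (ZMod 2) (Fin (2 * m + 1) → ZMod 2),
        (V : Set (Fin (2 * m + 1) → ZMod 2)) ⊆
          ((A + A : Finset (Fin (2 * m + 1) → ZMod 2)) : Set (Fin (2 * m + 1) → ZMod 2)) →
        Module.finrank (ZMod 2) V + (2 * k + 1) ≤ 2 * m + 1) := by
  classical
  constructor
  · intro n A hA δ hδ hd
    have h2n : (0 : ℝ) < 2 ^ n := by positivity
    have hcard : (1 / 2 - δ) * 2 ^ n ≤ A.card := (le_div_iff₀ h2n).1 hd
    obtain ⟨η, hη, hη2⟩ : ∃ η : ℝ, 0 < η ∧ 20000 * (δ + η) ^ 2 * n < (⌊20000 * δ ^ 2 * n⌋₊ + 1 : ℕ) := by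
      have h1 : 20000 * δ ^ 2 * n < (⌊20000 * δ ^ 2 * n⌋₊ + 1 : ℕ) := by
        push_cast
        exact Nat.lt_floor_add_one _
      have h2 : Filter.Tendsto (fun η : ℝ => 20000 * (δ + η) ^ 2 * n) (nhdsWithin 0 (Set.Ioi 0))
          (nhds (20000 * (δ + 0) ^ 2 * n)) := by
        apply Filter.Tendsto.mono_left _ nhdsWithin_le_nhds
        exact (by fun_prop : Continuous fun η : ℝ => 20000 * (δ + η) ^ 2 * n).tendsto 0
      rw [add_zero] at h2
      have h3 := (h2.eventually (gt_mem_nhds h1)).and self_mem_nhdsWithin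
      obtain ⟨η, h4, h5⟩ := h3.exists
      exact ⟨η, h5, h4⟩
    obtain ⟨V, hV, hV2⟩ := Pool.Agent.Helper4.subspace_in_sumset A hA (δ + η) (by linarith)
      (by
        refine le_trans ?_ hcard
        apply mul_le_mul_of_nonneg_right _ h2n.le
        linarith) _ hη2
    exact ⟨V, hV, fun v hv => hV2 v hv⟩
  · intro k m hk hk1
    refine ⟨Finset.univ.filter fun x : Fin (2 * m + 1) → ZMod 2 => wt x ≤ m - k, ?_, ?_, ?_⟩
    · refine ⟨0, Finset.mem_filter.2 ⟨Finset.mem_univ _, ?_⟩⟩
      simp [wt]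
    · have h1 := card_low m k hk
      have h2 := middle_lt m
      have h1' : (2 : ℝ) ^ (2 * m) ≤
          ((Finset.univ.filter fun x : Fin (2 * m + 1) → ZMod 2 => wt x ≤ m - k).card : ℝ) +
          k * ((2 * m + 1).choose m : ℝ) := by exact_mod_cast h1
      have hk0 : (0 : ℝ) < k := by exact_mod_cast hk1
      have h2n : (0 : ℝ) < 2 ^ (2 * m + 1) := by positivity
      rw [lt_div_iff₀ h2n]
      have h3 : (k : ℝ) * ((2 * m + 1).choose m : ℝ) <
          k * (2 ^ (2 * m + 1) / Real.sqrt (2 * m + 1)) := mul_lt_mul_of_pos_left h2 hk0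
      have h4 : (1 / 2 : ℝ) * 2 ^ (2 * m + 1) = 2 ^ (2 * m) := by
        rw [pow_succ]
        ring
      push_cast
      have h5 : (1 / 2 - k / Real.sqrt (2 * (m : ℝ) + 1)) * 2 ^ (2 * m + 1) =
          2 ^ (2 * m) - k * (2 ^ (2 * m + 1) / Real.sqrt (2 * m + 1)) := by
        rw [sub_mul, h4]
        ring
      rw [h5]
      linarith
    · intro V hV
      obtain ⟨v, hv, hw⟩ := exists_heavy V
      have h1 := hV hv
      rw [Finset.mem_coe, Finset.mem_add] at h1
      obtain ⟨a, ha, b, hb, hab⟩ := h1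
      have h2 := wt_add_le a b
      rw [hab] at h2
      have h3 := (Finset.mem_filter.1 ha).2
      have h4 := (Finset.mem_filter.1 hb).2
      omega

end Pool.Agent.Results.MP_6c5a21_nt.UniformCodimension
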